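import Pool.Agent.Lib.MP_4287a9_ag.WCa
import Pool.Agent.Lib.MP_bc213e_ag.KL.Af
import Pool.Agent.Lib.MP_bc213e_ag.KL.P.Jsp

/-! Charts in codimension one. -/

namespace Pool.Agent.Lib.MP_bc213e_ag.KL

open Pool.Agent.Lib.MP_4287a9_ag
open Pool.Agent.Lib.MP_bc213e_ag.DC (Jac)
open scoped NNReal

variable {k M N : Type} [Field k] [CharZero k] [Field M] [Algebra k M] [Fintype N] {φ r : ℕ}

omit [CharZero k] [Fintype N] in
theorem Af.jac_x (A : Af k M N φ r) : Jac A.D A.x ≠ 0 := by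
  rw [Jac, show (Matrix.of fun a c => A.D a (A.x c)) = 1 from Matrix.ext fun a c => A.dual a c,
    Matrix.det_one]
  exact one_ne_zero

omit [CharZero k] [Fintype N] in
theorem Af.hint (A : Af k M N φ r) (a : A.R) :
    IsIntegral (Algebra.adjoin k (Set.range fun l => (⟨A.x l, A.x_mem l⟩ : A.R))) a := by
  have h1 : IsIntegral (Algebra.adjoin k (Set.range A.x)) (a : M) :=
    (Algebra.adjoin_le (by
      rintro _ ⟨i, rfl⟩
      exact A.int i) : A.R ≤ (integralClosure _ M).restrictScalars k) a.2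
  have e : (Algebra.adjoin k (Set.range fun l => (⟨A.x l, A.x_mem l⟩ : A.R))).map A.R.val =
      Algebra.adjoin k (Set.range A.x) := by
    rw [AlgHom.map_adjoin, ← Set.range_comp]
    rfl
  rw [← e] at h1
  rw [← isIntegral_algebraMap_iff (B := M) Subtype.val_injective]
  let ψ := Subalgebra.equivMapOfInjective
    (Algebra.adjoin k (Set.range fun l => (⟨A.x l, A.x_mem l⟩ : A.R))) A.R.val Subtype.val_injective
  exact h1.map_of_comp_eq ψ.symm.toRingEquiv.toRingHom (RingHom.id M) (RingHom.ext fun z =>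
    congrArg Subtype.val (ψ.apply_symm_apply z))

omit [CharZero k] in
theorem Af.dd_ne_bot (A : Af k M N φ r) : A.dd ≠ ⊥ := fun h => by
  have := A.frac
  obtain ⟨s, hs, -⟩ := exists_max_Jac A.D A.t ⊤ (fun _ _ => trivial) (fun f _ => by
    obtain ⟨a, c, hc, rfl⟩ := IsFractionRing.div_surjective (A := A.R) f
    have h0 : (c : M) ≠ 0 := IsFractionRing.to_map_ne_zero_of_mem_nonZeroDivisors hc
    exact ⟨c, c.2, h0, trivial, (mul_div_cancel₀ (a : M) h0).symm ▸ a.2⟩) A.jac_x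
  exact mul_ne_zero A.u_ne (pow_ne_zero r hs)
    (congrArg Subtype.val (Ideal.span_eq_bot.1 h _ ⟨s, rfl⟩))

theorem Af.exists_cd (A : Af k M N φ r) (hφ : 1 ≤ φ) (hr : 0 < r) :
    ∃ c : CD k A.R M φ, c.D = A.D ∧ c.u = A.u ∧ c.M = 1 ∧ c.Good A.dd r := by
  have := A.frac
  have := A.norm
  have : Algebra.FiniteType k A.R := .adjoin_of_finite (Set.finite_range _)
  refine MP_4287a9_ag.exists_cd A.hint A.dual hφ A.dd_ne_bot hr one_pos A.u_ne fun O hO => ?_
  have h1 : ∀ a, a ∈ Algebra.adjoin A.R ((∅ : Finset M) : Set M) → a ∈ A.R := fun a ha => by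
    rw [Finset.coe_empty, Algebra.adjoin_empty] at ha
    obtain ⟨a, rfl⟩ := ha
    exact a.2
  have h2 : ∀ a ∈ A.R, a ∈ O := fun a ha => hO.base (⟨a, ha⟩ : A.R)
  obtain ⟨s, s0, s1, s2⟩ := exists_max_Jac A.D A.t O h2 (fun f hf => by
    obtain ⟨c, c1, c2, c3, c4⟩ := hO.2.2 f hf
    exact ⟨c, h1 _ c1, c2, c3, h1 _ c4⟩) A.jac_x
  have h3 : ∀ {y z : M}, O.valuation y ≤ O.valuation z → y / z ∈ O := fun h => by
    rw [← O.valuation_le_one_iff, map_div₀]
    exact div_le_one_of_le₀ h zero_le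
  have h4 : ordS O (jacs A.D O) = ordS O {Jac A.D (A.t ∘ s)} := by
    refine ordS_eq_of_gen ⟨_, fun l => h2 _ (Algebra.subset_adjoin ⟨_, rfl⟩), rfl⟩ ?_ s0
    rintro _ ⟨z, hz, rfl⟩
    exact h3 (s2 z hz)
  have h5 : ordS O (algebraMap A.R M '' A.dd) = ordS O {A.u * Jac A.D (A.t ∘ s) ^ r} := by
    refine ordS_eq_of_gen ⟨A.δ s, Ideal.subset_span ⟨s, rfl⟩, rfl⟩ ?_
      (mul_ne_zero A.u_ne (pow_ne_zero r s0))
    rintro _ ⟨z, hz, rfl⟩
    induction hz using Submodule.span_induction with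
    | mem z hz =>
      obtain ⟨s', rfl⟩ := hz
      change A.u * _ / _ ∈ O
      rw [mul_div_mul_left _ _ A.u_ne, ← div_pow]
      exact pow_mem (h3 (s1 s')) r
    | zero => simp
    | add y z _ _ hy hz =>
      rw [map_add, add_div]
      exact add_mem hy hz
    | smul a z _ hz =>
      rw [smul_eq_mul, map_mul, mul_div_assoc]
      exact mul_mem (hO.base a) hz
  have h6 : (r : ℝ) ≠ 0 := Nat.cast_ne_zero.2 hr.ne'
  rw [ldisc, h4, h5, ordS_mul hO.1 A.u_ne (pow_ne_zero r s0), ← zpow_natCast, ordS_zpow hO.1 s0,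
    mul_one]
  push_cast
  field_simp
  ring

omit [CharZero k] [Fintype N] in
theorem Af.Klt.vk {A : Af k M N φ r} {c : CD k A.R M φ} (h1 : c.D = A.D) (h2 : c.u = A.u)
    (h3 : c.M = 1) {w : A.R} (h0 : w ≠ 0) {q : ℕ} (hq : 0 < q) (h : A.Klt w q) :
    c.VK r (Ideal.span {w}) (q : ℝ≥0)⁻¹ := fun S O hO => by
  have h4 : (w : M) ≠ 0 := fun e => h0 (Subtype.ext e)
  have h5 : ordS O (algebraMap A.R M '' Ideal.span {w}) = ordS O {(w : M)} := by
    refine ordS_eq_of_gen ⟨w, Ideal.mem_span_singleton_self w, rfl⟩ ?_ h4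
    rintro _ ⟨z, hz, rfl⟩
    obtain ⟨a, rfl⟩ := Ideal.mem_span_singleton'.1 hz
    change (a : M) * w / w ∈ O
    rw [mul_div_cancel_right₀ _ h4]
    exact hO.base a
  rw [h1, h2, h3, mul_one, h5, NNReal.coe_inv, NNReal.coe_natCast,
    inv_mul_lt_iff₀ (Nat.cast_pos.2 hq)]
  exact h S O hO

end Pool.Agent.Lib.MP_bc213e_ag.KL
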