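import Mathlib

/-! Descent of an affine variety to a finitely generated ring. -/

namespace Pool.Agent.Lib.MP_bc213e_ag.KL

open scoped TensorProduct

/-- Sketch: `aeval t : MvPolynomial N k →ₐ[k] R` is surjective and its kernel is generated by a
finite set `g` (Noetherian); write `y i = aeval t (Y i)`. Let `B = Algebra.adjoin ℤ s ⊆ k`, `s` the
finite set of the coefficients of the `g` and the `Y i` (`Subalgebra.fg_iff_finiteType`; the two
`ℤ`-algebra structures agree by `Subsingleton.elim`), `T = Algebra.adjoin B (range t) ⊆ R`, and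
`ρ = Algebra.TensorProduct.lift (Algebra.ofId k R) T.val`. Lift polynomials to `B` by
`MvPolynomial.mem_range_map_iff_coeffs_subset`. Every element of `k ⊗ T` is
`aeval (fun i => 1 ⊗ t' i) G` (`Algebra.TensorProduct.adjoin_one_tmul_image_eq_top`,
`Algebra.adjoin_range_eq_range_aeval`); if its image is `0` then `G ∈ span g`, and
`aeval (1 ⊗ t') (map _ g₀) = 1 ⊗ aeval t' g₀ = 0`. -/
theorem exists_desc {k R N J : Type} [Field k] [CommRing R] [Algebra k R] [Finite N] [Finite J]
    (t : N → R) (ht : Algebra.adjoin k (Set.range t) = ⊤) (y : J → R) :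
    ∃ (B T : Type) (_ : CommRing B) (_ : Algebra.FiniteType ℤ B) (_ : Algebra B k) (_ : CommRing T)
      (_ : Algebra B T) (_ : Algebra.FiniteType B T) (ρ : k ⊗[B] T ≃ₐ[k] R) (t' : N → T)
      (y' : J → T), Function.Injective (algebraMap B k) ∧ Algebra.adjoin B (Set.range t') = ⊤ ∧
        (∀ i, ρ (1 ⊗ₜ t' i) = t i) ∧ ∀ i, ρ (1 ⊗ₜ y' i) = y i := by
  classical
  have hs : Function.Surjective (MvPolynomial.aeval t : MvPolynomial N k →ₐ[k] R) := by
    rwa [← AlgHom.range_eq_top, ← Algebra.adjoin_range_eq_range_aeval]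
  obtain ⟨g, hg⟩ := IsNoetherian.noetherian
    (RingHom.ker (MvPolynomial.aeval t : MvPolynomial N k →ₐ[k] R))
  choose Y hY using fun j => hs (y j)
  have hf : (⋃ P ∈ (g : Set (MvPolynomial N k)) ∪ Set.range Y, (P.coeffs : Set k)).Finite :=
    (g.finite_toSet.union (Set.finite_range Y)).biUnion fun P _ => P.coeffs.finite_toSet
  let B := Algebra.adjoin ℤ (⋃ P ∈ (g : Set (MvPolynomial N k)) ∪ Set.range Y, (P.coeffs : Set k))
  have hB : ∀ P ∈ (g : Set (MvPolynomial N k)) ∪ Set.range Y,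
      ∃ Q : MvPolynomial N B, MvPolynomial.map (algebraMap B k) Q = P := fun P hP =>
    MvPolynomial.mem_range_map_iff_coeffs_subset.2 fun a ha =>
      ⟨⟨a, Algebra.subset_adjoin (Set.mem_biUnion hP ha)⟩, rfl⟩
  let T := Algebra.adjoin B (Set.range t)
  let t' : N → T := fun i => ⟨t i, Algebra.subset_adjoin ⟨i, rfl⟩⟩
  have hT : Algebra.adjoin B (Set.range t') = ⊤ := by
    rw [← Algebra.adjoin_adjoin_coe_preimage]
    congr 1
    ext z
    exact ⟨fun ⟨i, e⟩ => ⟨i, congrArg Subtype.val e⟩, fun ⟨i, e⟩ => ⟨i, Subtype.ext e⟩⟩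
  have hv : ∀ Q : MvPolynomial N B, (MvPolynomial.aeval t' Q : T) =
      MvPolynomial.aeval t (MvPolynomial.map (algebraMap B k) Q) := fun Q => by
    rw [MvPolynomial.aeval_map_algebraMap]
    exact MvPolynomial.comp_aeval_apply t' T.val Q
  let ρ : k ⊗[B] T →ₐ[k] R :=
    Algebra.TensorProduct.lift (Algebra.ofId k R) T.val fun _ _ => Commute.all _ _
  have h1 : ∀ z : T, ρ (1 ⊗ₜ z) = z := fun z => by simp [ρ]
  have h2 : ∀ G : MvPolynomial N k,
      ρ (MvPolynomial.aeval (fun i => (1 : k) ⊗ₜ[B] t' i) G) = MvPolynomial.aeval t G :=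
    fun G => by simp only [MvPolynomial.comp_aeval_apply, h1, t']
  have h3 : Function.Surjective (MvPolynomial.aeval (fun i => (1 : k) ⊗ₜ[B] t' i) :
      MvPolynomial N k →ₐ[k] k ⊗[B] T) := by
    rw [← AlgHom.range_eq_top, ← Algebra.adjoin_range_eq_range_aeval,
      ← Algebra.TensorProduct.adjoin_one_tmul_image_eq_top _ hT, ← Set.range_comp]
    rfl
  have h4 : Function.Bijective ρ := by
    refine ⟨(injective_iff_map_eq_zero _).2 fun z hz => ?_, fun r => ?_⟩
    · obtain ⟨G, rfl⟩ := h3 z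
      rw [h2, ← RingHom.mem_ker, ← hg] at hz
      refine (Ideal.span_le (I := RingHom.ker (MvPolynomial.aeval (fun i => (1 : k) ⊗ₜ[B] t' i) :
        MvPolynomial N k →ₐ[k] k ⊗[B] T))).2 (fun P hP => ?_) hz
      obtain ⟨Q, rfl⟩ := hB P (Or.inl hP)
      have e : MvPolynomial.aeval t' Q = 0 :=
        Subtype.ext ((hv Q).trans (hg.le (Submodule.subset_span hP)))
      have e' := MvPolynomial.comp_aeval_apply t'
        (Algebra.TensorProduct.includeRight : T →ₐ[B] k ⊗[B] T) Q
      rw [e, map_zero, ← MvPolynomial.aeval_map_algebraMap k] at e'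
      exact e'.symm
    · obtain ⟨G, rfl⟩ := hs r
      exact ⟨_, h2 G⟩
  choose Q hQ using fun j => hB (Y j) (Or.inr ⟨j, rfl⟩)
  refine ⟨B, T, inferInstance, ?_, inferInstance, inferInstance, inferInstance,
    ⟨Subalgebra.fg_def.2 ⟨_, Set.finite_range t', hT⟩⟩, AlgEquiv.ofBijective ρ h4, t',
    fun j => MvPolynomial.aeval t' (Q j), Subtype.val_injective, hT, fun i => h1 _,
    fun j => (h1 _).trans (by rw [hv, hQ, hY])⟩
  convert (Subalgebra.fg_iff_finiteType B).1 (Subalgebra.fg_def.2 ⟨_, hf, rfl⟩)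

end Pool.Agent.Lib.MP_bc213e_ag.KL
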