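import Pool.Agent.Lib.MP_bc213e_ag.DC.T2

/-! Reductions to finite fields. -/

namespace Pool.Agent.Lib.MP_bc213e_ag.KL

open Pool.Agent.Lib.MP_bc213e_ag.DC Filter MvPowerSeries

theorem fin_fin (k : Type) [Field k] (p : ℕ) [Fact p.Prime] [CharP k p]
    (h : Algebra.FiniteType ℤ k) : Finite k := by
  let _ := ZMod.algebra k p
  have := Algebra.FiniteType.of_restrictScalars_finiteType ℤ (ZMod p) k
  have := finite_of_finite_type_of_isJacobsonRing (ZMod p) k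
  exact Module.finite_of_finite (ZMod p)

/-- Sketch: as `DC.freq_mod` (file `DC/Mod`), but take a maximal ideal above `𝔮`; its residue field
is finite (`finite_of_finiteType_int` in `MP_4287a9_ag`, or `finite_of_finite_type_of_isJacobsonRing`
over `ZMod p`) and has characteristic `p`. -/
theorem freq_fin (Ω : Type) [Field Ω] [CharZero Ω] {m : ℕ} (hm : 0 < m) :
    ∃ᶠ r in RF Ω, Finite r.k ∧ ∃ n, r.p = m * n + 1 := by
  classical
  refine (hasBasis_iInf_principal_finite _).frequently_iff.2 fun t ht => ?_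
  let A : Subalgebra ℤ Ω := Algebra.adjoin ℤ (ht.toFinset : Set Ω)
  have hA : Algebra.FiniteType ℤ A :=
    (Subalgebra.fg_iff_finiteType A).1 (Subalgebra.fg_adjoin_finset _)
  have hP : Algebra.FinitePresentation ℤ A := Algebra.FinitePresentation.of_finiteType.1 hA
  have ho := (PrimeSpectrum.isOpenMap_comap_of_hasGoingDown_of_finitePresentation
    (R := ℤ) (S := A)).isOpen_range
  obtain ⟨I, hI⟩ := (PrimeSpectrum.isClosed_iff_zeroLocus _).1 ho.isClosed_compl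
  have h0 : (⟨⊥, Ideal.isPrime_bot⟩ : PrimeSpectrum ℤ) ∉ PrimeSpectrum.zeroLocus I := by
    rw [← hI]
    exact not_not.2 ⟨⟨⊥, Ideal.isPrime_bot⟩, PrimeSpectrum.ext
      (Ideal.comap_bot_of_injective _ (RingHom.injective_int _))⟩
  obtain ⟨N, hN, hN0⟩ := Set.not_subset.1 h0
  obtain ⟨p, hp, h1, h2⟩ := Nat.exists_prime_gt_modEq_one N.natAbs hm.ne'
  have hp' : Prime (p : ℤ) := Nat.prime_iff_prime_int.1 hp
  have h3 : (⟨Ideal.span {(p : ℤ)}, (Ideal.span_singleton_prime hp'.ne_zero).2 hp'⟩ :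
      PrimeSpectrum ℤ) ∉ PrimeSpectrum.zeroLocus I := fun h =>
    (Nat.le_of_dvd (Int.natAbs_pos.2 hN0)
      (Int.natCast_dvd.1 (Ideal.mem_span_singleton.1 (h hN)))).not_gt h1
  rw [← hI] at h3
  obtain ⟨𝔮, h𝔮⟩ := not_not.1 h3
  have : Fact p.Prime := ⟨hp⟩
  obtain ⟨𝔪, h𝔪, le⟩ := 𝔮.asIdeal.exists_le_maximal 𝔮.2.ne_top
  let _ := Ideal.Quotient.field 𝔪
  have h4 : ((p : ℤ) : A) ∈ 𝔮.asIdeal :=
    (congrArg PrimeSpectrum.asIdeal h𝔮).ge (Ideal.mem_span_singleton_self _)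
  have : CharP (A ⧸ 𝔪) p := (CharP.charP_iff_prime_eq_zero hp).2 (by
    rw [← map_natCast (Ideal.Quotient.mk 𝔪), Ideal.Quotient.eq_zero_iff_mem.2 (le (by simpa using h4))])
  have : Finite (A ⧸ 𝔪) := fin_fin _ p (Algebra.FiniteType.of_surjective
    (Ideal.Quotient.mkₐ ℤ 𝔪) Ideal.Quotient.mk_surjective)
  refine ⟨Rd.mk A.toSubring (A ⧸ 𝔪) p (Ideal.Quotient.mk 𝔪), Set.mem_iInter₂.2 fun a ha =>
    Algebra.subset_adjoin (ht.mem_toFinset.2 ha), this, ?_⟩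
  obtain ⟨n, hn⟩ := (Nat.modEq_iff_dvd' hp.one_le).1 h2.symm
  exact ⟨n, (Nat.sub_eq_iff_eq_add hp.one_le).1 hn⟩

end Pool.Agent.Lib.MP_bc213e_ag.KL
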