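import Pool.Agent.Lib.MP_4287a9_ag.WGd
import Pool.Agent.Lib.MP_4287a9_ag.WHyF
import Pool.Agent.Lib.MP_bc213e_ag.KL.S.CD

/-! The reductions of a klt pair are strongly F-regular. -/

namespace Pool.Agent.Lib.MP_bc213e_ag.KL

open Pool.Agent.Lib.MP_4287a9_ag
open scoped NNReal TensorProduct

variable {k M N : Type} [Field k] [CharZero k] [Field M] [Algebra k M] [Fintype N] {φ r : ℕ}

omit [CharZero k] in
theorem gen_map {B T R : Type} [CommRing B] [Algebra B k] [CommRing T] [Algebra B T] [CommRing R]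
    [Algebra k R] (ρ : k ⊗[B] T →ₐ[k] R) (s : Set T) :
    (ext B k (Ideal.span s)).map ρ = Ideal.span ((fun x => ρ (1 ⊗ₜ x)) '' s) := by
  rw [ext, Ideal.map_span, Ideal.map_span, Set.image_image]
  rfl

/-- The model `R = A.R`, `f = 1`. -/
theorem Af.sf_gen (A : Af k M N φ r) (hφ : 1 ≤ φ) (hr : 0 < r) {w : A.R} (h0 : w ≠ 0) {q : ℕ}
    (hq : 0 < q) (klt : A.Klt w q) {B T : Type} [CommRing B] [Algebra.FiniteType ℤ B] [Algebra B k]
    [CommRing T] [Algebra B T] [Algebra.FiniteType B T] (hB : Function.Injective (algebraMap B k))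
    (ρ : k ⊗[B] T ≃ₐ[k] A.R) {δ' : (Fin φ → N) → T} (hδ : ∀ s, ρ (1 ⊗ₜ δ' s) = A.δ s) {w' : T}
    (hw : ρ (1 ⊗ₜ w') = w) (hz : NZ B (Ideal.span (Set.range δ'))) {Ω : Type} [Field Ω]
    [Algebra B Ω] (e : k →ₐ[B] Ω) (τ : T →ₐ[B] Ω) :
    ∃ (C : Subalgebra B Ω) (σ : T →ₐ[B] C) (b : C), C.FG ∧ C.val.comp σ = τ ∧ b ≠ 0 ∧
      ∀ (κ : Type) [Field κ] [Finite κ] [Algebra B κ] (χ : C →ₐ[B] κ), χ b ≠ 0 →
        SFat (ringChar κ) (pk (χ.comp σ)) (ext B κ (Ideal.span (Set.range δ'))) r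
          (ext B κ (Ideal.span {w'})) (q : ℝ≥0)⁻¹ := by
  obtain ⟨c, c1, c2, c3, c4⟩ := A.exists_cd hφ hr
  have := A.frac
  have := A.norm
  have ft : Algebra.FiniteType k A.R :=
    .of_surjective (ρ : k ⊗[B] T →ₐ[k] A.R) ρ.surjective
  have e1 : (ext B k (Ideal.span (Set.range δ'))).map (ρ : k ⊗[B] T →ₐ[k] A.R) = A.dd := by
    rw [gen_map, ← Set.range_comp]
    exact congrArg (fun f => Ideal.span (Set.range f)) (funext hδ)
  have e2 : (ext B k (Ideal.span {w'})).map (ρ : k ⊗[B] T →ₐ[k] A.R) = Ideal.span {w} := by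
    rw [gen_map, Set.image_singleton]
    exact congrArg (fun f => Ideal.span {f}) hw
  let μ : Mdl k (k ⊗[B] T) φ (ext B k (Ideal.span (Set.range δ'))) r :=
    { R := A.R
      K := M
      ρ := ρ
      f := 1
      away := ⟨by simp, fun a => ⟨0, ρ.symm a, by simp⟩, fun x hx => ⟨0, by simpa using hx⟩⟩
      c := c
      good := e1 ▸ c4 }
  have h1 : μ.VK (ext B k (Ideal.span {w'})) (q : ℝ≥0)⁻¹ := by
    have := klt.vk c1 c2 c3 h0 hq
    rwa [← e2] at this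
  have h2 := h1.hasGD hr (fun h => h0 (Ideal.span_singleton_eq_bot.1 (e2.symm.trans h)))
  rw [← spk_ext (Algebra.ofId B k) (Ideal.span {w'})] at h2
  obtain ⟨C, σ, ψ, h3, h4, -, b, h5, h6⟩ := h2.genO hB hz (Algebra.ofId B k) _ e τ fun h => by
    rw [mem_pk] at h
    exact one_ne_zero (((map_one _).symm.trans (congrArg _ (map_one _).symm)).trans h)
  refine ⟨C, σ, b, h3, h4, h5, fun κ _ _ _ χ hχ => ?_⟩
  have := (h6 κ χ hχ).2 trivial
  rwa [spk_ext, spk_ext] at this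

end Pool.Agent.Lib.MP_bc213e_ag.KL
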