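import Pool.Agent.Lib.MP_4287a9_ag.TD0c

/-! Normalisation data on the generic fibre. -/

namespace Pool.Agent.Lib.MP_bc213e_ag.KL

open Pool.Agent.Lib.MP_4287a9_ag
open scoped TensorProduct

variable {k B T : Type} [Field k] [CommRing B] [Algebra B k] [CommRing T] [Algebra B T] {n C : ℕ}

theorem ind_lin (hB : Function.Injective (algebraMap B k)) (d : ND B T n C) {m 𝔡 : Ideal T} {b : B}
    (hd : d.GoodB m 𝔡 b) :
    LinearIndependent k fun a : (Fin n →₀ ℕ) × Fin d.P.natDegree =>
      ((1 : k) ⊗ₜ[B] ((∏ i, d.x i ^ a.1 i) * d.θ ^ (a.2 : ℕ)) : k ⊗[B] T) := by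
  classical
  have := hB.isDomain
  have : FaithfulSMul B k := (faithfulSMul_iff_algebraMap_injective B k).2 hB
  let _ := FractionRing.liftAlgebra B k
  have := FractionRing.isScalarTower_liftAlgebra B k
  have : Module.Flat B (FractionRing B) := IsLocalization.flat _ (nonZeroDivisors B)
  have : Module.Flat B k := Module.Flat.trans B (FractionRing B) k
  refine Module.Flat.linearIndependent_one_tmul (linearIndependent_iff'.2 fun s g h a ha => ?_)
  have h1 := Polynomial.eq_zero_of_dvd_of_degree_lt (hd.inj (∑ a ∈ s,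
    Polynomial.monomial (a.2 : ℕ) (MvPolynomial.monomial a.1 (g a))) (by
      rw [map_sum, ← h]
      refine Finset.sum_congr rfl fun a _ => ?_
      rw [ND.ev, Polynomial.coe_eval₂RingHom, Polynomial.eval₂_monomial, Algebra.smul_def,
        ← mul_assoc]
      refine congrArg (· * _) ?_
      change MvPolynomial.aeval d.x _ = _
      rw [MvPolynomial.aeval_monomial, Finsupp.prod_fintype _ _ fun _ => pow_zero _])) (by
      rw [Polynomial.degree_eq_natDegree hd.monic.ne_zero]
      refine (Polynomial.degree_sum_le _ _).trans_lt ((Finset.sup_lt_iff (WithBot.bot_lt_coe _)).2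
        fun a _ => (Polynomial.degree_monomial_le _ _).trans_lt (Nat.cast_lt.2 a.2.2)))
  have h2 := congrArg (fun f => MvPolynomial.coeff a.1 (Polynomial.coeff f a.2)) h1
  simp only [Polynomial.finsetSum_coeff, MvPolynomial.coeff_sum, Polynomial.coeff_monomial,
    Polynomial.coeff_zero, MvPolynomial.coeff_zero] at h2
  rwa [Finset.sum_eq_single a (fun a' _ hne => by
    split_ifs with e
    · rw [MvPolynomial.coeff_monomial, if_neg fun e' => hne (Prod.ext e' (Fin.ext e))]
    · rfl) (fun h => absurd ha h), if_pos rfl, MvPolynomial.coeff_monomial, if_pos rfl] at h2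

theorem ind_int (d : ND B T n C) {m 𝔡 : Ideal T} {b : B} (hb : algebraMap B k b ≠ 0)
    (hd : d.GoodB m 𝔡 b) {R : Type} [CommRing R] [Algebra k R] (ρ : k ⊗[B] T ≃ₐ[k] R) (a : R) :
    IsIntegral (Algebra.adjoin k (Set.range fun i => ρ (1 ⊗ₜ d.x i))) a := by
  set S := Algebra.adjoin k (Set.range fun i => ρ (1 ⊗ₜ d.x i)) with hS
  have h1 : ∀ p : MvPolynomial (Fin n) B, ρ (1 ⊗ₜ d.ax p) ∈ S := fun p => by
    rw [← TD0c_ax, hS, Algebra.adjoin_range_eq_range_aeval]
    exact ⟨p.map (algebraMap B k),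
      (MvPolynomial.comp_aeval_apply (fun i => 1 ⊗ₜ d.x i) (ρ : k ⊗[B] T →ₐ[k] R) _).symm⟩
  have h2 : ∀ z, ρ z ∈ Submodule.span S (Set.range fun i => ρ (1 ⊗ₜ d.ω i)) := fun z => by
    induction z using TensorProduct.induction_on with
    | zero => simp
    | add y z hy hz =>
      rw [map_add]
      exact add_mem hy hz
    | tmul c w =>
      obtain ⟨j, a, h⟩ := hd.span w
      have e : c ⊗ₜ[B] w = (c / algebraMap B k b ^ j) • ((1 : k) ⊗ₜ[B] (b ^ j • w)) := by
        rw [← TensorProduct.smul_tmul, TensorProduct.smul_tmul', Algebra.smul_def (b ^ j), mul_one,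
          map_pow, smul_eq_mul, div_mul_cancel₀ _ (pow_ne_zero j hb)]
      rw [e, map_smul, h, TensorProduct.tmul_sum, map_sum]
      refine Submodule.smul_of_tower_mem _ _ (sum_mem fun i _ => ?_)
      rw [show (1 : k) ⊗ₜ[B] (d.ax (a i) * d.ω i) = 1 ⊗ₜ d.ax (a i) * 1 ⊗ₜ d.ω i by simp, map_mul]
      exact Submodule.smul_mem _ (⟨_, h1 (a i)⟩ : S) (Submodule.subset_span ⟨i, rfl⟩)
  have : Module.Finite S R := ⟨Submodule.fg_def.2 ⟨_, Set.finite_range _,
    top_unique fun z _ => ρ.apply_symm_apply z ▸ h2 _⟩⟩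
  exact IsIntegral.of_finite S a

end Pool.Agent.Lib.MP_bc213e_ag.KL
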