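import Pool.Agent.Lib.MP_4287a9_ag.WHyF
import Pool.Agent.Lib.MP_4287a9_ag.TD0c
import Pool.Agent.Lib.MP_bc213e_ag.KL.P.Core
import Pool.Agent.Lib.MP_bc213e_ag.KL.P.Inj
import Pool.Agent.Lib.MP_bc213e_ag.KL.P.Nd
import Pool.Agent.Lib.MP_bc213e_ag.KL.P.JC

/-! The key statement on one reduction. -/

namespace Pool.Agent.Lib.MP_bc213e_ag.KL

open Pool.Agent.Lib.MP_4287a9_ag (ND SFat pk ext TD0c_fib)
open Pool.Agent.Lib.MP_bc213e_ag.DC
open scoped NNReal TensorProduct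

/-- Sketch: `β = Algebra.TensorProduct.lift (Algebra.ofId κ L) π`, `β (1 ⊗ f) = π f`. It is
injective by `nd_inj` for `TD0c_fib d κ` (`algInd_of_Jac`; `Monic.natDegree_map`, transport `hl`
along the equality of degrees; `Polynomial.coeff_map` and the total degree of
`MvPolynomial.map _ a` is at most that of `a`). Apply `core` with `P = κ ⊗[B] T`, `t = 1 ⊗ t`
(`Algebra.TensorProduct.adjoin_one_tmul_image_eq_top`), `x = (TD0c_fib d κ).x`, `nd_int`, `nd_t1`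
(`reg` gives `c1 ^ 2 ≠ 0`), `δ = 1 ⊗ δ`, `w = 1 ⊗ w` (`Ideal.map_span`), `m = pk τ` and
`y = aeval (1 ⊗ t) G` (`mem_pk`, `pa_tmul`, `MvPolynomial.comp_aeval_apply`). -/
theorem key_p {B T κ L N : Type} [CommRing B] [CommRing T] [Algebra B T] [Field κ] [Finite κ]
    [Algebra B κ] [CommRing L] [IsDomain L] [Algebra κ L] [Algebra B L] [IsScalarTower B κ L]
    [Fintype N] {φ p C₀ : ℕ} [Fact p.Prime] [CharP κ p] (c : Car κ L (Fin φ) p) (π : T →ₐ[B] L)
    (τ : T →ₐ[B] κ) (t : N → T) (ht : Algebra.adjoin B (Set.range t) = ⊤) (d : ND B T φ C₀)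
    (hm : d.P.Monic) {m 𝔡 : Ideal (κ ⊗[B] T)} (hd : (TD0c_fib d κ).Good m 𝔡)
    (hJ : Jac c.der (fun l => π (d.x l)) ≠ 0) {N₀ : ℕ}
    (hN : ∀ i, (d.P.coeff i).totalDegree + d.P.natDegree ≤ N₀)
    (hl : LinearIndependent κ fun a : {a : Fin φ →₀ ℕ // a.degree ≤ N₀} × Fin d.P.natDegree =>
      π ((∏ i, d.x i ^ a.1.1 i) * d.θ ^ (a.2 : ℕ)))
    (θ : L) (hθ : θ ≠ 0) {r n₀ q n : ℕ} (hr : 0 < r) (hq : 0 < q) (hp : p = r * n₀ + 1)
    (hp' : p = q * n + 1) (δ : (Fin φ → N) → T)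
    (hδ : ∀ s, π (δ s) = θ * Jac c.der (fun l => π (t (s l))) ^ r) (w : T)
    (sf : SFat p (pk τ) (ext B κ (Ideal.span (Set.range δ))) r (ext B κ (Ideal.span {w}))
      (q : ℝ≥0)⁻¹) :
    ∃ γ : N → ℕ, (∀ i, γ i < p) ∧ ∀ G : MvPolynomial N κ,
      MvPolynomial.aeval (fun i => τ (t i)) G = 0 →
        c.Φ (θ ^ n₀ * (π w ^ n * ∏ i, π (t i) ^ γ i)) ≠
          MvPolynomial.aeval (fun i => π (t i)) G := by
  let β : κ ⊗[B] T →ₐ[κ] L :=
    Algebra.TensorProduct.lift (Algebra.ofId κ L) π fun _ _ => Commute.all _ _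
  have hβ : ∀ f : T, β (1 ⊗ₜ f) = π f := fun f => by simp [β]
  have hx : β ∘ (TD0c_fib d κ).x = fun l => π (d.x l) := funext fun l => hβ _
  have hn : (TD0c_fib d κ).P.natDegree = d.P.natDegree := hm.natDegree_map _
  have inj : Function.Injective β := nd_inj (TD0c_fib d κ) hd β
    (algInd_of_Jac c.der (hx ▸ hJ)) (N := N₀) (fun i => by
      rw [hn]
      refine le_trans (Nat.add_le_add_right ?_ _) (hN i)
      rw [show (TD0c_fib d κ).P.coeff i = _ from Polynomial.coeff_map _ i]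
      exact Finset.sup_mono (MvPolynomial.support_map_subset _ _)) (by
      rw [hn]
      simpa only [TD0c_fib, hβ, map_mul, map_prod, map_pow] using hl)
  have := β.domain_nontrivial
  have e : ∀ s : Set T, ext B κ (Ideal.span s) = Ideal.span ((fun x : T => (1 : κ) ⊗ₜ[B] x) '' s) :=
    fun s => Ideal.map_span _ s
  rw [e, e, ← Set.range_comp, Set.image_singleton] at sf
  obtain ⟨γ, h1, h2⟩ := core c β inj (fun i => 1 ⊗ₜ t i) (by
      rw [← Algebra.TensorProduct.adjoin_one_tmul_image_eq_top (A := κ) _ ht, ← Set.range_comp]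
      rfl) (TD0c_fib d κ).x (nd_int _ hd) (hx ▸ hJ)
    (nonZeroDivisors.ne_zero (pow_mem hd.reg 2)) (nd_t1 _ hd) θ hθ hr hq hp hp' _
    (fun s => by simpa only [Function.comp_apply, hβ] using hδ s) _ (pk τ) sf
  refine ⟨γ, h1, fun G hG => ?_⟩
  have := h2 (MvPolynomial.aeval (fun i => (1 : κ) ⊗ₜ[B] t i) G) (by
    rw [MP_4287a9_ag.mem_pk, MvPolynomial.comp_aeval_apply]
    simpa only [MP_4287a9_ag.pa_tmul, one_mul] using hG)
  rw [MvPolynomial.comp_aeval_apply] at this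
  simpa only [hβ] using this

end Pool.Agent.Lib.MP_bc213e_ag.KL
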