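import Pool.Agent.Lib.MP_4287a9_ag.WTb
import Pool.Agent.Lib.MP_4287a9_ag.WVb
import Pool.Agent.Lib.MP_bc213e_ag.KL.Af
import Pool.Agent.Lib.MP_bc213e_ag.KL.P.JC

/-! Normalisation data over the base. -/

namespace Pool.Agent.Lib.MP_bc213e_ag.KL

open Pool.Agent.Lib.MP_4287a9_ag
open Pool.Agent.Lib.MP_bc213e_ag.DC (Jac)
open scoped TensorProduct

section

variable {k M N : Type} [Field k] [CharZero k] [Field M] [Algebra k M] {φ r : ℕ}

omit [CharZero k] in
/-- the coordinate ring is integral over `k[x]` -/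
theorem Af.ndb_int (A : Af k M N φ r) (a : A.R) :
    IsIntegral (Algebra.adjoin k (Set.range fun l => (⟨A.x l, A.x_mem l⟩ : A.R))) a := by
  set S := Algebra.adjoin k (Set.range fun l => (⟨A.x l, A.x_mem l⟩ : A.R))
  have hS : S.map A.R.val = Algebra.adjoin k (Set.range A.x) := by
    rw [AlgHom.map_adjoin, ← Set.range_comp]
    rfl
  let e := S.equivMapOfInjective A.R.val Subtype.val_injective
  have h1 : A.R ≤ (integralClosure S M).restrictScalars k := Algebra.adjoin_le (by
    rintro _ ⟨i, rfl⟩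
    have h2 : IsIntegral (S.map A.R.val) (A.t i) := hS ▸ A.int i
    refine h2.map_of_comp_eq e.symm.toRingEquiv.toRingHom (RingHom.id M) (RingHom.ext fun y => ?_)
    obtain ⟨z, rfl⟩ := e.surjective y
    exact congrArg (algebraMap S M) (e.symm_apply_apply z))
  exact (isIntegral_algebraMap_iff (B := M) Subtype.val_injective).1 (h1 a.2)

omit [CharZero k] in
theorem Af.ndb_one (A : Af k M N φ r) : Jac A.D A.x = 1 := by
  rw [← Matrix.det_one (n := Fin φ)]
  exact congrArg Matrix.det (Matrix.ext fun i l => A.dual i l)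

/-- the dimension -/
theorem Af.ndb_trdeg (A : Af k M N φ r) : Algebra.trdeg k A.R = φ := by
  have h1 : AlgebraicIndependent k fun l => (⟨A.x l, A.x_mem l⟩ : A.R) :=
    AlgebraicIndependent.of_comp A.R.val (algInd_of_Jac A.D (A.ndb_one ▸ one_ne_zero))
  rw [← (h1.isTranscendenceBasis_iff_isAlgebraic.2
    ⟨fun a => (A.ndb_int a).isAlgebraic⟩).cardinalMk_eq_trdeg, Cardinal.mk_fin]

/-- a derivation that kills a Noether normalisation vanishes -/
theorem ndb_der {R : Subalgebra k M} [IsFractionRing R M] {x : Fin φ → R}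
    (hx : ∀ a : R, IsIntegral (Algebra.adjoin k (Set.range x)) a)
    (E : Derivation k M M) (h : ∀ l, E (x l) = 0) : E = 0 := by
  have h0 : ∀ c : Algebra.adjoin k (Set.range x), E (c : R) = 0 := by
    rintro ⟨c, hc⟩
    induction hc using Algebra.adjoin_induction with
    | mem c hc =>
      obtain ⟨l, rfl⟩ := hc
      exact h l
    | algebraMap c => exact E.map_algebraMap c
    | add a b _ _ ha hb => exact (E.map_add a b).trans (by rw [ha, hb, add_zero])
    | mul a b _ _ ha hb => exact (E.leibniz a b).trans (by rw [ha, hb, smul_zero, smul_zero, add_zero])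
  have h1 : ∀ a : R, E (algebraMap R M a) = 0 := fun a => by
    obtain ⟨p, hp, hp'⟩ := hx a
    have : CharZero (Algebra.adjoin k (Set.range x)) :=
      charZero_of_injective_algebraMap (algebraMap k _).injective
    let ψ := (algebraMap R M).comp (algebraMap (Algebra.adjoin k (Set.range x)) R)
    obtain ⟨q, hq, hq'⟩ := wva_rel ψ ⊥ (fun b hb => Subtype.ext (Subtype.ext hb))
      (algebraMap R M a) hp.ne_zero (by rw [← Polynomial.hom_eval₂, hp', map_zero]; rfl)
    have h2 := wva_eval E ψ h0 (algebraMap R M a) q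
    rw [Ideal.mem_bot.1 hq, map_zero, smul_eq_mul] at h2
    exact (mul_eq_zero.1 h2.symm).resolve_left hq'
  ext z
  obtain ⟨a, b, -, rfl⟩ := IsFractionRing.div_surjective (A := R) z
  rw [Derivation.leibniz_div, h1, h1]
  simp

/-- the Jacobian of a Noether normalisation is not zero -/
theorem Af.ndb_jac (A : Af k M N φ r) {x : Fin φ → A.R}
    (hx : ∀ a : A.R, IsIntegral (Algebra.adjoin k (Set.range x)) a) :
    Jac A.D (fun l => (x l : M)) ≠ 0 := by
  intro h
  have := A.frac
  obtain ⟨v, hv, h1⟩ := Matrix.exists_vecMul_eq_zero_iff.2 h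
  have h2 : ∀ w : M, (∑ i, v i • A.D i) w = ∑ i, v i * A.D i w := fun w => by
    have e : ⇑(∑ i, v i • A.D i) = ∑ i, ⇑(v i • A.D i) := map_sum Derivation.coeFnAddMonoidHom _ _
    rw [e, Finset.sum_apply]
    rfl
  have h3 := ndb_der hx (∑ i, v i • A.D i) fun l => by
    rw [h2]
    exact congrFun h1 l
  refine (A.ndb_one ▸ one_ne_zero : Jac A.D A.x ≠ 0)
    (Matrix.exists_vecMul_eq_zero_iff.1 ⟨v, hv, funext fun l => ?_⟩)
  have h4 := h2 (A.x l)
  rw [h3] at h4
  exact h4.symm

end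

/-- Noether normalisation data over the base and on the fibres over finite fields -/
theorem exists_ndB {k B T : Type} [Field k] [CharZero k] [CommRing B] [IsNoetherianRing B]
    [Algebra B k] (hB : Function.Injective (algebraMap B k)) [CommRing T] [Algebra B T]
    [Algebra.FiniteType B T] [IsDomain (k ⊗[B] T)] {n : ℕ} (hn : Algebra.trdeg k (k ⊗[B] T) = n)
    {𝔡 : Ideal T} (h𝔡 : ext B k 𝔡 ≠ ⊥) :
    ∃ (C : ℕ) (d : ND B T n C) (b b' : B), b ≠ 0 ∧ b' ≠ 0 ∧ d.GoodB ⊤ 𝔡 b ∧
      ∀ (κ : Type) [Field κ] [Finite κ] [Algebra B κ], algebraMap B κ b' ≠ 0 →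
        (TD0c_fib d κ).Good (ext B κ ⊤) (ext B κ 𝔡) := by
  have : IsDomain B := hB.isDomain _
  have : CharZero B := (algebraMap B k).charZero
  have : CharZero (FractionRing B) := IsFractionRing.charZero B
  obtain ⟨i1, h1, h2⟩ := descend_frac hB hn h𝔡
  obtain ⟨E, d, hd⟩ := exists_nd_field' (ext B (FractionRing B) (⊤ : Ideal T))
    (fun w => ⟨1, one_ne_zero, by rw [ext, Ideal.map_top]; trivial⟩) h1 h2
  obtain ⟨d1, b1, hb1, hd1⟩ := exists_nd_base' ⊤ (fun _ _ _ _ => trivial) 𝔡 d hd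
  obtain ⟨b, hb, hf⟩ := nd_fibre' ⊤ 𝔡 d1 hb1 hd1
  exact ⟨E, d1, b1, b, hb1, hb, hd1, hf⟩

end Pool.Agent.Lib.MP_bc213e_ag.KL
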