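import Pool.Agent.Lib.MP_bc213e_ag.DC.T2
import Pool.Agent.Lib.MP_bc213e_ag.DC.RedB

/-! Reduction of homomorphisms. -/

namespace Pool.Agent.Lib.MP_bc213e_ag.KL

open Pool.Agent.Lib.MP_bc213e_ag.DC Filter MvPowerSeries

variable {Ω ι σ T : Type} [Field Ω] [CommRing T]

/-- Sketch: finitely many generators (`Algebra.FiniteType.out`, `Algebra.adjoin_induction`; an
integer lies in every subring). -/
theorem red_ev_sub [Algebra.FiniteType ℤ T] {S : Type} {α : Type 1} [CommRing S] (g : T →+* S)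
    {F : Filter α} (U : α → Subring S) (h : ∀ f, ∀ᶠ r in F, g f ∈ U r) : ∀ᶠ r in F, ∀ f, g f ∈ U r := by
  obtain ⟨s, hs⟩ := Algebra.FiniteType.out (R := ℤ) (A := T)
  filter_upwards [(eventually_all_finset s).2 fun f _ => h f] with r hr f
  have hf : f ∈ Algebra.adjoin ℤ (s : Set T) := hs ▸ Algebra.mem_top
  induction hf using Algebra.adjoin_induction with
  | mem x hx => exact hr x hx
  | algebraMap n => rw [eq_intCast, map_intCast]; exact intCast_mem _ n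
  | add x y _ _ h1 h2 => rw [map_add]; exact add_mem h1 h2
  | mul x y _ _ h1 h2 => rw [map_mul]; exact mul_mem h1 h2

/-- Sketch: `r.ψ.comp (g.codRestrict _ h)`, `Rd.sc_coe`. -/
theorem red_sc_hom (r : Rd Ω) (g : T →+* Ω) (h : ∀ f, g f ∈ r.Λ) :
    ∃ χ : T →+* r.k, ∀ f, χ f = r.sc (g f) :=
  ⟨r.ψ.comp (g.codRestrict _ h), fun f => (r.sc_coe ⟨g f, h f⟩).symm⟩

/-- Sketch: `t2_mul`, `Rd.red_add`, `Rd.red_one`, `Rd.red_zero`. -/
theorem red_rd_hom (r : Rd Ω) (g : T →+* MvPowerSeries ι Ω)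
    (h : ∀ f, (C (g f) : SS Ω ι σ) ∈ IS r.Λ) :
    ∃ π : T →+* MvPowerSeries ι r.k, ∀ f, π f = t2_rd σ r (g f) :=
  ⟨{ toFun := fun f => t2_rd σ r (g f)
     map_one' := by rw [map_one, t2_rd, map_one, Rd.red_one, map_one]
     map_mul' := fun x y => by rw [map_mul, t2_mul (h x) (h y)]
     map_zero' := by rw [map_zero, t2_rd, map_zero, Rd.red_zero, map_zero]
     map_add' := fun x y => by
       rw [map_add, t2_rd, map_add, Rd.red_add (h x) (h y), map_add]; rfl }, fun _ => rfl⟩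

/-- Sketch: compare coefficients (`Rd.coeff_red`, `coeff_C`, `Rd.sc_zero`). -/
theorem red_rd_C (r : Rd Ω) (x : Ω) : t2_rd σ r (C x : MvPowerSeries ι Ω) = C (r.sc x) := by
  classical
  ext β
  rw [t2_rd, ← coeff_zero_eq_constantCoeff_apply, Rd.coeff_red, coeff_zero_C, coeff_C, coeff_C]
  split_ifs
  exacts [rfl, r.sc_zero]

/-- Sketch: `Rd.red_JacI`, as `h3` in `Dat.t2`. -/
theorem red_rd_Jac [Fintype ι] [DecidableEq ι] {r : Rd Ω} {z : ι → MvPowerSeries ι Ω}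
    (h : ∀ i, (C (z i) : SS Ω ι σ) ∈ IS r.Λ) :
    (C (Jac (fun i => pderiv Ω i) z) : SS Ω ι σ) ∈ IS r.Λ ∧
      t2_rd σ r (Jac (fun i => pderiv Ω i) z) =
        Jac (fun i => pderiv r.k i) fun i => t2_rd σ r (z i) :=
  ⟨(Rd.red_JacI h).1, (congrArg constantCoeff (Rd.red_JacI h).2).trans (constantCoeff_C _)⟩

/-- Sketch: `ev_ne`, `t2_C`. -/
theorem red_ev_ne {y : MvPowerSeries ι Ω} (h : y ≠ 0) : ∀ᶠ r in RF Ω, t2_rd σ r y ≠ 0 := by
  filter_upwards [ev_ne (f := (C y : SS Ω ι σ)) ((map_ne_zero_iff _ C_injective).2 h)] with r h1 h0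
  exact h1 (by rw [t2_C, h0, map_zero])

/-- Sketch: `ev_indep` for `CL ∘ f` (`LinearIndependent.map'`, `C_injective`), `t2_C`,
`LinearIndependent.of_comp (CL _ _ _)`. -/
theorem red_ev_ind {J : Type} [Finite J] {f : J → MvPowerSeries ι Ω}
    (good : ∀ j, (C (f j) : SS Ω ι σ) ∈ Good Ω ι σ) (h : LinearIndependent Ω f) :
    ∀ᶠ r in RF Ω, LinearIndependent r.k fun j => t2_rd σ r (f j) := by
  have := Fintype.ofFinite J
  have h1 : LinearIndependent Ω fun j => (C (f j) : SS Ω ι σ) :=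
    h.map' (CL Ω ι σ) (LinearMap.ker_eq_bot.2 C_injective)
  filter_upwards [ev_indep good h1] with r h2
  refine LinearIndependent.of_comp (CL r.k ι σ) ?_
  have e : (CL r.k ι σ ∘ fun j => t2_rd σ r (f j)) = fun j => r.red (C (f j) : SS Ω ι σ) :=
    funext fun j => (t2_C r (f j)).symm
  rw [e]
  exact h2.1

end Pool.Agent.Lib.MP_bc213e_ag.KL
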