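import Pool.Agent.Lib.MP_bc213e_ag.DC.T2
import Pool.Agent.Lib.MP_bc213e_ag.DC.RedB

/-! Reduction of a space of functions that vanish at a point. -/

namespace Pool.Agent.Lib.MP_bc213e_ag.KL

open Pool.Agent.Lib.MP_bc213e_ag.DC Filter MvPowerSeries

variable {Ω ι σ : Type} [Field Ω]

theorem redh_C {F N : Type} [Field F] (Z : N → MvPowerSeries ι F) (P : MvPolynomial N F) :
    (C (MvPolynomial.aeval Z P) : SS F ι σ) =
      MvPolynomial.aeval (fun i => (C (Z i) : SS F ι σ)) P :=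
  (MvPolynomial.comp_aeval_apply Z (IsScalarTower.toAlgHom F (MvPowerSeries ι F) (SS F ι σ))
    P)

theorem redh_zero {N : Type} (r : Rd Ω) {c₀ : N → Ω} (hc : ∀ i, c₀ i ∈ r.Λ)
    {P : MvPolynomial N Ω} (hP : ∀ m, P.coeff m ∈ r.Λ) (h : MvPolynomial.aeval c₀ P = 0) :
    MvPolynomial.aeval (fun i => r.sc (c₀ i)) (r.redP P) = 0 := by
  obtain ⟨Q, rfl⟩ := red_liftP hP
  have h1 : MvPolynomial.eval (fun i => (⟨c₀ i, hc i⟩ : r.Λ)) Q = 0 := by
    refine Subtype.ext ?_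
    have h2 := MvPolynomial.eval₂_comp_left r.Λ.subtype (RingHom.id _)
      (fun i => (⟨c₀ i, hc i⟩ : r.Λ)) Q
    rw [MvPolynomial.aeval_eq_eval, MvPolynomial.eval_map] at h
    exact h2.trans h
  have h2 := MvPolynomial.eval₂_comp_left r.ψ (RingHom.id _) (fun i => (⟨c₀ i, hc i⟩ : r.Λ)) Q
  rw [Rd.red_redP_map, MvPolynomial.aeval_eq_eval, MvPolynomial.eval_map,
    funext fun i => r.sc_coe ⟨c₀ i, hc i⟩]
  exact h2.symm.trans ((congrArg r.ψ h1).trans (map_zero _))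

/-- Sketch: `redb_basis` for `H.map (CL _ _ _)`, `ev_redS_span`; a basis element is
`C (aeval Z P) = aeval (C ∘ Z) P` (good as `Good` is a subalgebra), its reduction is
`aeval (red ∘ C ∘ Z) (r.redP P)` (`Rd.red_aeval`, `ev_coeff`, `t2_C`). For
`aeval (sc ∘ c₀) (r.redP P) = 0` use `red_liftP`, `Rd.red_redP_map` and `MvPolynomial.hom_eval₂`
in `r.Λ` (`ev_mem`). Then `Submodule.span_induction`. -/
theorem redh_ev {N : Type} [Finite N] {Z : N → MvPowerSeries ι Ω}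
    (good : ∀ i, (C (Z i) : SS Ω ι σ) ∈ Good Ω ι σ) (c₀ : N → Ω)
    (H : Submodule Ω (MvPowerSeries ι Ω)) [FiniteDimensional Ω H]
    (hH : ∀ h ∈ H, ∃ P : MvPolynomial N Ω, MvPolynomial.aeval Z P = h ∧
      MvPolynomial.aeval c₀ P = 0) :
    ∀ᶠ r in RF Ω, ∀ y ∈ r.redS (H.map (CL Ω ι σ)), ∃ G : MvPolynomial N r.k,
      MvPolynomial.aeval (fun i => r.sc (c₀ i)) G = 0 ∧
        y = C (MvPolynomial.aeval (fun i => t2_rd σ r (Z i)) G) := by
  obtain ⟨n, b, -, hb⟩ := redb_basis (H.map (CL Ω ι σ))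
  have h1 : ∀ i, ∃ P : MvPolynomial N Ω,
      MvPolynomial.aeval (fun i => (C (Z i) : SS Ω ι σ)) P = b i ∧
        MvPolynomial.aeval c₀ P = 0 := fun i => by
    obtain ⟨h, h2, h3⟩ := hb.le (Submodule.subset_span ⟨i, rfl⟩)
    obtain ⟨P, rfl, h4⟩ := hH h h2
    exact ⟨P, (redh_C Z P).symm.trans h3, h4⟩
  choose P hP hP0 using h1
  have gb : ∀ i, b i ∈ Good Ω ι σ := fun i => by
    have h2 : Algebra.adjoin Ω (Set.range fun i => (C (Z i) : SS Ω ι σ)) ≤ Good Ω ι σ :=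
      Algebra.adjoin_le (Set.range_subset_iff.2 good)
    rw [Algebra.adjoin_range_eq_range_aeval] at h2
    exact h2 ⟨P i, hP i⟩
  filter_upwards [ev_redS_span gb, eventually_all.2 good, eventually_all.2 fun i => ev_coeff (P i),
    eventually_all.2 fun i => ev_mem (c₀ i)] with r e1 e2 e3 e4 y hy
  rw [← hb, e1] at hy
  induction hy using Submodule.span_induction with
  | mem x hx =>
    obtain ⟨i, rfl⟩ := hx
    refine ⟨r.redP (P i), redh_zero r e4 (e3 i) (hP0 i), ?_⟩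
    rw [redh_C, ← funext fun l => t2_C r (Z l)]
    exact (congrArg r.red (hP i).symm).trans (Rd.red_aeval (e3 i) e2).2
  | zero => exact ⟨0, map_zero _, by rw [map_zero, map_zero]⟩
  | add x y _ _ hx hy =>
    obtain ⟨G, h1, rfl⟩ := hx
    obtain ⟨G', h2, rfl⟩ := hy
    exact ⟨G + G', by rw [map_add, h1, h2, add_zero], by rw [map_add, map_add]⟩
  | smul c x _ hx =>
    obtain ⟨G, h1, rfl⟩ := hx
    refine ⟨c • G, by rw [map_smul, h1, smul_zero], ?_⟩
    rw [map_smul]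
    exact ((CL r.k ι σ).map_smul c _).symm

end Pool.Agent.Lib.MP_bc213e_ag.KL
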