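import Pool.Agent.Lib.MP_bc213e_ag.KL.S.Fin
import Pool.Agent.Lib.MP_bc213e_ag.KL.S.Desc
import Pool.Agent.Lib.MP_bc213e_ag.KL.S.Gen
import Pool.Agent.Lib.MP_bc213e_ag.KL.S.NdB
import Pool.Agent.Lib.MP_bc213e_ag.KL.S.Ind
import Pool.Agent.Lib.MP_bc213e_ag.KL.S.Red
import Pool.Agent.Lib.MP_bc213e_ag.KL.S.RedH
import Pool.Agent.Lib.MP_bc213e_ag.KL.S.KeyP

/-! The Cartier operator of a klt pair has no base point. -/

namespace Pool.Agent.Lib.MP_bc213e_ag.KL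

open Pool.Agent.Lib.MP_bc213e_ag.DC Filter MvPowerSeries
open Pool.Agent.Lib.MP_4287a9_ag (ext NZ)
open scoped TensorProduct

variable {k M N : Type} [Field k] [CharZero k] [Field M] [Algebra k M] [Fintype N] {φ r : ℕ}

/-- `E` is the expansion at a general point, `τ` is any point with values in `Ω`, and `H` is a space
of functions that vanish at `τ`. -/
theorem Af.key (A : Af k M N φ r) (hφ : 1 ≤ φ) (hr : 0 < r) {w : M} (hw : w ∈ A.R) (h0 : w ≠ 0)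
    {q : ℕ} (hq : 0 < q) (klt : A.Klt w q) {Ω σ : Type} [Field Ω] (e : k →+* Ω) (τ : A.R →+* Ω)
    (hτ : ∀ c, τ (algebraMap k A.R c) = e c) (E : M →+* MvPowerSeries (Fin φ) Ω)
    (hE : ∀ c, E (algebraMap k M c) = C (e c))
    (good : ∀ f, (C (E f) : SS Ω (Fin φ) σ) ∈ Good Ω (Fin φ) σ)
    (ind : ∀ (J : Type) (f : J → M), LinearIndependent k f → LinearIndependent Ω fun i => E (f i))
    (θ : M) (hθ : ∀ z : Fin φ → M,
      E (A.u * Jac A.D z ^ r) = E θ * Jac (fun i => pderiv Ω i) (fun l => E (z l)) ^ r)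
    (H : Submodule Ω (MvPowerSeries (Fin φ) Ω)) [FiniteDimensional Ω H]
    (hH : ∀ h ∈ H, ∃ P : MvPolynomial N Ω, MvPolynomial.aeval (fun i => E (A.t i)) P = h ∧
      MvPolynomial.aeval (fun i => τ ⟨A.t i, Algebra.subset_adjoin ⟨i, rfl⟩⟩) P = 0) :
    ∃ᶠ ρ in RF Ω, ∃ n₀ n, ρ.p = r * n₀ + 1 ∧ ρ.p = q * n + 1 ∧
      ∀ c : Car ρ.k (MvPowerSeries (Fin φ) ρ.k) (Fin φ) ρ.p, (c.der = fun i => pderiv ρ.k i) →
        ∃ γ : N → ℕ, (∀ i, γ i < ρ.p) ∧
          (C (c.Φ (t2_rd σ ρ (E θ) ^ n₀ * (t2_rd σ ρ (E w) ^ n *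
            ∏ i, t2_rd σ ρ (E (A.t i)) ^ γ i))) : SS ρ.k (Fin φ) σ) ∉
              ρ.redS (H.map (CL Ω (Fin φ) σ)) := by
  classical
  have : CharZero Ω := charZero_of_injective_ringHom e.injective
  let t₀ : N → A.R := fun i => ⟨A.t i, Algebra.subset_adjoin ⟨i, rfl⟩⟩
  have ht₀ : Algebra.adjoin k (Set.range t₀) = ⊤ := by
    refine Subalgebra.map_injective (f := A.R.val) Subtype.val_injective ?_
    rw [AlgHom.map_adjoin, ← Set.range_comp, Algebra.map_top, Subalgebra.range_val]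
    rfl
  obtain ⟨B, T, _, _, _, _, _, _, ρ, t, y, hB, ht, h1, h2⟩ :=
    exists_desc t₀ ht₀ fun o : Option (Fin φ → N) => o.elim ⟨w, hw⟩ A.δ
  have : IsNoetherianRing B := Algebra.FiniteType.isNoetherianRing ℤ B
  have : IsDomain (k ⊗[B] T) := ρ.toMulEquiv.isDomain _
  have h𝔡 : ext B k (Ideal.span (Set.range fun s => y (some s))) ≠ ⊥ := fun h => A.dd_ne_bot (by
    refine Ideal.span_eq_bot.2 ?_
    rintro _ ⟨s, rfl⟩
    have h3 : ((1 : k) ⊗ₜ[B] y (some s) : k ⊗[B] T) ∈ (⊥ : Ideal (k ⊗[B] T)) :=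
      h ▸ Ideal.mem_map_of_mem _ (Ideal.subset_span ⟨s, rfl⟩)
    exact (h2 (some s)).symm.trans (by rw [Ideal.mem_bot.1 h3, map_zero]))
  obtain ⟨C₀, d, b₀, b₁, hb₀, hb₁, hd, hfib⟩ :=
    exists_ndB hB (ρ.trdeg_eq.trans A.ndb_trdeg) h𝔡
  have hz : NZ B (Ideal.span (Set.range fun s => y (some s))) := ⟨b₁, hb₁, fun κ _ _ _ h =>
    ⟨_, (hfib κ h).hγ, (mul_mem_nonZeroDivisors.1 (hfib κ h).reg).2⟩⟩
  let _ : Algebra B Ω := (e.comp (algebraMap B k)).toAlgebra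
  let j : T →+* A.R := ρ.toRingEquiv.toRingHom.comp
    (Algebra.TensorProduct.includeRight : T →ₐ[B] k ⊗[B] T).toRingHom
  have hj : ∀ f, j f = ρ (1 ⊗ₜ f) := fun _ => rfl
  have hjB : ∀ b, j (algebraMap B T b) = algebraMap k A.R (algebraMap B k b) := fun b => by
    rw [← ρ.commutes, ← IsScalarTower.algebraMap_apply]
    exact congrArg ρ ((Algebra.TensorProduct.includeRight : T →ₐ[B] k ⊗[B] T).commutes b)
  let τ' : T →ₐ[B] Ω := ⟨τ.comp j, fun b => (congrArg τ (hjB b)).trans (hτ _)⟩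
  obtain ⟨C', σ', b, hC, hσ, hb, hS⟩ := A.sf_gen hφ hr (w := ⟨w, hw⟩)
    (fun h => h0 (congrArg Subtype.val h)) hq klt hB ρ (fun s => h2 (some s)) (h2 none) hz
    ⟨e, fun _ => rfl⟩ τ'
  let g : T →+* MvPowerSeries (Fin φ) Ω := E.comp (A.R.val.toRingHom.comp j)
  have hg : ∀ f, g f = E (j f : M) := fun _ => rfl
  have hgt : ∀ i, g (t i) = E (A.t i) := fun i => by rw [hg, hj, h1]
  have hJ : E θ * Jac (fun i => pderiv Ω i) (fun l => g (d.x l)) ^ r ≠ 0 := by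
    rw [← show _ = E θ * Jac (fun i => pderiv Ω i) (fun l => g (d.x l)) ^ r from hθ _]
    exact (map_ne_zero E).2 (mul_ne_zero A.u_ne (pow_ne_zero _ (A.ndb_jac
      (ind_int d ((map_ne_zero_iff _ hB).2 hb₀) hd ρ))))
  obtain ⟨N₀, hN⟩ : ∃ N₀, ∀ i, (d.P.coeff i).totalDegree + d.P.natDegree ≤ N₀ := by
    refine ⟨d.P.support.sup (fun i => (d.P.coeff i).totalDegree) + d.P.natDegree, fun i =>
      Nat.add_le_add_right ?_ _⟩
    by_cases hi : i ∈ d.P.support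
    · exact Finset.le_sup (f := fun i => (d.P.coeff i).totalDegree) hi
    · rw [Polynomial.notMem_support_iff.1 hi, MvPolynomial.totalDegree_zero]
      exact Nat.zero_le _
  have : Finite {a : Fin φ →₀ ℕ // a.degree ≤ N₀} := Finsupp.finite_of_degree_le N₀
  have hl : LinearIndependent Ω
      fun a : {a : Fin φ →₀ ℕ // a.degree ≤ N₀} × Fin d.P.natDegree =>
        g ((∏ i, d.x i ^ a.1.1 i) * d.θ ^ (a.2 : ℕ)) :=
    ind _ _ (((ind_lin hB d hd).comp (Prod.map Subtype.val id)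
      (Subtype.val_injective.prodMap Function.injective_id)).map'
      (A.R.val.comp ρ.toAlgHom).toLinearMap
      (LinearMap.ker_eq_bot.2 (Subtype.val_injective.comp ρ.injective)))
  have : Algebra.FiniteType ℤ T := Algebra.FiniteType.trans (S := B) inferInstance inferInstance
  have : Algebra.FiniteType ℤ C' := Algebra.FiniteType.trans (S := B) inferInstance
    ((Subalgebra.fg_iff_finiteType C').1 hC)
  have e1 : ∀ᶠ ρ in RF Ω, ∀ f, (C (g f) : SS Ω (Fin φ) σ) ∈ IS ρ.Λ :=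
    red_ev_sub ((C : _ →+* SS Ω (Fin φ) σ).comp g) (fun ρ : Rd Ω => IS ρ.Λ) fun f => good _
  have e2 : ∀ᶠ ρ in RF Ω, ∀ c : C', C'.val.toRingHom c ∈ ρ.Λ :=
    red_ev_sub C'.val.toRingHom (fun ρ : Rd Ω => ρ.Λ) fun f => ev_mem _
  have e3 := ev_sc_ne (x := (b : Ω)) fun h => hb (Subtype.ext h)
  have e4 := ev_sc_ne (x := algebraMap B Ω b₁)
    ((map_ne_zero e).2 ((map_ne_zero_iff _ hB).2 hb₁))
  have e5 := red_ev_ne (σ := σ) (left_ne_zero_of_mul hJ)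
  have e6 := red_ev_ne (σ := σ) ((pow_ne_zero_iff hr.ne').1 (right_ne_zero_of_mul hJ))
  have e8 := red_ev_ind (σ := σ) (fun a => (hg _).symm ▸ good _) hl
  have e9 := redh_ev (σ := σ) (fun i => good (A.t i)) (fun i => τ (t₀ i)) H hH
  refine ((freq_fin Ω (Nat.mul_pos hr hq)).and_eventually (((((((e1.and e2).and e3).and e4).and
    e5).and e6).and (mem_Good.1 (good θ))).and (e8.and e9))).mono ?_
  rintro s ⟨⟨_, n, hp⟩, ⟨⟨⟨⟨⟨⟨a1, a2⟩, a3⟩, a4⟩, a5⟩, a6⟩, a7⟩, a8, a9⟩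
  refine ⟨q * n, r * n, by rw [hp, mul_assoc], by rw [hp, mul_left_comm, mul_assoc],
    fun c hc => ?_⟩
  obtain ⟨χ₀, hχ⟩ := red_sc_hom s _ a2
  obtain ⟨π₀, hπ⟩ := red_rd_hom s g a1
  let _ : Algebra B s.k := (χ₀.comp (algebraMap B C')).toAlgebra
  have hBk : ∀ b, algebraMap B s.k b = s.sc (algebraMap B Ω b) := fun b => hχ _
  let χ : C' →ₐ[B] s.k := ⟨χ₀, fun _ => rfl⟩
  let π : T →ₐ[B] MvPowerSeries (Fin φ) s.k := ⟨π₀, fun b => by
    refine (hπ _).trans ?_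
    rw [hg, hjB, MvPowerSeries.algebraMap_apply, hBk, ← red_rd_C (σ := σ)]
    exact congrArg _ (hE _)⟩
  have hπ' : ∀ f, π f = t2_rd σ s (g f) := hπ
  have hJac : ∀ z : Fin φ → T, Jac c.der (fun l => π (z l)) =
      t2_rd σ s (Jac (fun i => pderiv Ω i) fun l => g (z l)) := fun z => by
    rw [hc, (red_rd_Jac fun l => a1 (z l)).2]
    simp only [hπ']
  have : IsDomain (MvPowerSeries (Fin φ) s.k) := NoZeroDivisors.to_isDomain _
  have sf := hS s.k χ ((hχ b).trans_ne a3)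
  rw [ringChar.eq s.k s.p] at sf
  obtain ⟨γ, hγ, h3⟩ := key_p c π (χ.comp σ') t ht d hd.monic (hfib s.k ((hBk _).trans_ne a4))
    ((hJac _).trans_ne a6) hN (by simp only [hπ']; exact a8) (t2_rd σ s (E θ)) a5 hr hq
    (n₀ := q * n) (n := r * n) (by rw [hp, mul_assoc]) (by rw [hp, mul_left_comm, mul_assoc])
    (fun s => y (some s)) (fun u => by
      have h4 := (red_rd_Jac fun l => a1 (t (u l))).1
      rw [hJac, ← t2_pow h4, ← t2_mul a7 (by rw [map_pow]; exact pow_mem h4 r), hπ', hg, hj,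
        h2 (some u)]
      simp only [hgt]
      exact congrArg _ (hθ (A.t ∘ u))) (y none) sf
  refine ⟨γ, hγ, fun hmem => ?_⟩
  obtain ⟨G, hG, h4⟩ := a9 _ hmem
  have h5 : ∀ i, (χ.comp σ') (t i) = s.sc (τ (t₀ i)) := fun i => by
    refine (hχ _).trans (congrArg s.sc ?_)
    rw [← h1, ← hj]
    exact DFunLike.congr_fun hσ (t i)
  refine h3 G (by simpa only [h5] using hG) ?_
  simp only [hπ', hgt]
  rw [hg, hj, h2 none]
  exact C_injective h4

end Pool.Agent.Lib.MP_bc213e_ag.KL
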